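import Pool.Agent.helper74.PC2.LEN2B

/-!
# PC project, module LEN2D: the standard words of `W(D_n)` are reduced, minimal length in the class
-/

set_option linter.all false

namespace Pool.Agent.helper27.PC

open Finset

section LEN2Da

variable {n : ℕ}

/-- all transitions that are not opposite -/
def LEN2D_inv (h : Fin n × Bool → ℤ) (w : Equiv.Perm (Fin n × Bool)) : ℕ :=
  LEN2B_T h w univ univ

theorem LEN2D_inv_mul {h : Fin n × Bool → ℤ} (H : LEN_Odd h) (w u : Equiv.Perm (Fin n × Bool))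
    (hu : u ∈ W n) : LEN2D_inv h (w * u) ≤ LEN2D_inv h w + LEN2D_inv h u := by
  have e1 : LEN2D_inv h w = ∑ x, ∑ y, LEN2B_tau h w (u x) (u y) := by
    unfold LEN2D_inv LEN2B_T
    rw [← Equiv.sum_comp u]
    apply Finset.sum_congr rfl
    intro x _
    rw [← Equiv.sum_comp u]
  rw [e1]
  unfold LEN2D_inv LEN2B_T
  rw [← Finset.sum_add_distrib]
  apply Finset.sum_le_sum
  intro x _
  rw [← Finset.sum_add_distrib]
  apply Finset.sum_le_sum
  intro y _
  unfold LEN2B_tau
  by_cases hp : y ≠ (x.1, !x.2) ∧ h x < h y ∧ h ((w * u) y) < h ((w * u) x)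
  · rw [if_pos hp]
    obtain ⟨hp0, hp1, hp2⟩ := hp
    have hp0' : u y ≠ ((u x).1, !(u x).2) := by
      intro hc
      rw [← mem_W.1 hu x] at hc
      exact hp0 (u.injective hc)
    rw [Equiv.Perm.mul_apply, Equiv.Perm.mul_apply] at hp2
    rcases lt_trichotomy (h (u x)) (h (u y)) with h3 | h3 | h3
    · rw [if_pos ⟨hp0', h3, hp2⟩]
      omega
    · exfalso
      have := u.injective (H.inj h3)
      rw [this] at hp1
      exact lt_irrefl _ hp1
    · rw [if_pos (show y ≠ (x.1, !x.2) ∧ h x < h y ∧ h (u y) < h (u x) from ⟨hp0, hp1, h3⟩)]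
      omega
  · rw [if_neg hp]
    exact Nat.zero_le _

theorem LEN2D_inv_conj (h : Fin n × Bool → ℤ) (w g : Equiv.Perm (Fin n × Bool)) (hg : g ∈ W n) :
    LEN2D_inv h (g * w * g⁻¹) = LEN2D_inv (fun x => h (g x)) w := by
  unfold LEN2D_inv LEN2B_T
  rw [← Equiv.sum_comp g]
  apply Finset.sum_congr rfl
  intro x _
  rw [← Equiv.sum_comp g]
  apply Finset.sum_congr rfl
  intro y _
  unfold LEN2B_tau
  have h1 : (g y ≠ ((g x).1, !(g x).2)) ↔ (y ≠ (x.1, !x.2)) := by
    rw [← mem_W.1 hg x, not_iff_not]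
    exact g.injective.eq_iff
  have h2 : (g y ≠ ((g x).1, !(g x).2) ∧ h (g x) < h (g y) ∧
      h ((g * w * g⁻¹) (g y)) < h ((g * w * g⁻¹) (g x))) ↔
      (y ≠ (x.1, !x.2) ∧ h (g x) < h (g y) ∧ h (g (w y)) < h (g (w x))) := by
    rw [h1]
    simp [Equiv.Perm.mul_apply]
  by_cases hc : (y ≠ (x.1, !x.2) ∧ h (g x) < h (g y) ∧ h (g (w y)) < h (g (w x)))
  · rw [if_pos (h2.2 hc), if_pos hc]
  · rw [if_neg (fun h' => hc (h2.1 h')), if_neg hc]

theorem LEN2D_inv_one (h : Fin n × Bool → ℤ) : LEN2D_inv h 1 = 0 := by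
  have h1 := LEN_inv_one (n := n) h
  have h2 := LEN2B_T_le (n := n) h 1 univ univ
  unfold LEN_inv at h1
  unfold LEN2D_inv
  omega

theorem LEN2D_inv_g0 : LEN2D_inv LEN_pos ((g n 0 : W n) : Equiv.Perm (Fin n × Bool)) = 0 := by
  by_cases hn : 0 < n
  · unfold LEN2D_inv
    rw [LEN2B_T_card, Finset.card_eq_zero, Finset.filter_eq_empty_iff]
    rintro ⟨x, y⟩ - ⟨h0, h1, h2⟩
    obtain ⟨x1, x2⟩ := LEN_g_zero hn x
    obtain ⟨y1, y2⟩ := LEN_g_zero hn y
    simp only at h0 h1 h2
    have h0' : ¬ (x.1.val = y.1.val ∧ y.2 = !x.2) := by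
      rintro ⟨q1, q2⟩
      exact h0 (Prod.ext (Fin.ext q1.symm) q2)
    unfold LEN_pos at h1 h2
    rw [x1, x2, y1, y2] at h2
    clear x1 x2 y1 y2 h0
    obtain ⟨⟨j, hj⟩, b⟩ := x
    obtain ⟨⟨k, hk⟩, c⟩ := y
    simp only at h0' h1 h2
    by_cases hj0 : j = 0 <;> by_cases hk0 : k = 0 <;> cases b <;> cases c <;>
      simp [hj0, hk0] at h0' h1 h2 <;> omega
  · have : g n 0 = 1 := by
      unfold g
      rw [dif_neg hn]
    rw [this, Subgroup.coe_one, LEN2D_inv_one]

theorem LEN2D_inv_gs (i : ℕ) :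
    LEN2D_inv LEN_pos ((g n i : W n) : Equiv.Perm (Fin n × Bool)) ≤ 2 := by
  unfold g
  split_ifs with hi
  · have h1 := LEN_inv_gen (n := n) ⟨i, hi⟩
    have h2 := LEN2B_T_le (n := n) LEN_pos (genPerm n ⟨i, hi⟩) univ univ
    unfold LEN_inv at h1
    have h3 : LEN2D_inv LEN_pos ((gen n ⟨i, hi⟩ : W n) : Equiv.Perm (Fin n × Bool)) =
        LEN2B_T LEN_pos (genPerm n ⟨i, hi⟩) univ univ := rfl
    rw [h3]
    omega
  · rw [Subgroup.coe_one, LEN2D_inv_one]
    omega

theorem LEN2D_inv_genD (i : Fin n) :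
    LEN2D_inv LEN_pos (((genD n i : WD n) : W n) : Equiv.Perm (Fin n × Bool)) ≤ 2 := by
  by_cases hi : i.val = 0
  · have e : ((genD n i : WD n) : W n) = g n 0 * g n 1 * g n 0 := by
      unfold genD
      simp [hi]
    rw [e]
    have h1 := LEN2D_inv_mul (n := n) LEN_pos_odd ((g n 0 * g n 1 : W n) : Equiv.Perm (Fin n × Bool))
      ((g n 0 : W n) : Equiv.Perm (Fin n × Bool)) (g n 0).2
    have h2 := LEN2D_inv_mul (n := n) LEN_pos_odd ((g n 0 : W n) : Equiv.Perm (Fin n × Bool))
      ((g n 1 : W n) : Equiv.Perm (Fin n × Bool)) (g n 1).2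
    have h3 := LEN2D_inv_g0 (n := n)
    have h4 := LEN2D_inv_gs (n := n) 1
    have e1 : ((g n 0 * g n 1 * g n 0 : W n) : Equiv.Perm (Fin n × Bool)) =
      ((g n 0 * g n 1 : W n) : Equiv.Perm (Fin n × Bool)) * ((g n 0 : W n) : Equiv.Perm (Fin n × Bool)) := rfl
    have e2 : ((g n 0 * g n 1 : W n) : Equiv.Perm (Fin n × Bool)) =
      ((g n 0 : W n) : Equiv.Perm (Fin n × Bool)) * ((g n 1 : W n) : Equiv.Perm (Fin n × Bool)) := rfl
    rw [e1]
    rw [e2] at h1 ⊢
    omega
  · have e : ((genD n i : WD n) : W n) = g n i.val := by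
      unfold genD g
      simp [hi]
    rw [e]
    exact LEN2D_inv_gs i.val

theorem LEN2D_inv_word (l : List (Fin n)) :
    LEN2D_inv LEN_pos ((((l.map (genD n)).prod : WD n) : W n) : Equiv.Perm (Fin n × Bool)) ≤
      2 * l.length := by
  induction l with
  | nil =>
    simp only [List.map_nil, List.prod_nil, List.length_nil, Subgroup.coe_one]
    rw [LEN2D_inv_one]
  | cons a l ih =>
    rw [List.map_cons, List.prod_cons, Subgroup.coe_mul, Subgroup.coe_mul, List.length_cons]
    have h1 := LEN2D_inv_mul LEN_pos_odd (((genD n a : WD n) : W n) : Equiv.Perm (Fin n × Bool))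
      ((((l.map (genD n)).prod : WD n) : W n) : Equiv.Perm (Fin n × Bool))
      (((l.map (genD n)).prod : WD n) : W n).2
    have h2 := LEN2D_inv_genD a
    omega

/-- a negative block has at least `2 a - 2` transitions that are not opposite -/
theorem LEN2D_one (h : Fin n × Bool → ℤ) (Hh : LEN_Odd h) (w : Equiv.Perm (Fin n × Bool))
    (e : ℕ → Fin n × Bool) (a : ℕ) (H : LEN_Cy w e a)
    (X : Finset (Fin n × Bool)) (hX : ∀ t, e t ∈ X) : 2 * a - 2 ≤ LEN2B_T h w X X := by
  classical
  have hp : 0 < 2 * a := by have := H.pos; omega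
  have key : ∀ j, ∃ t < 2 * a, (1 ≤ j → j < 2 * a → h (e t) < h (e (t + j)) ∧
        h (e (t + j + 1)) < h (e (t + 1))) := by
    intro j
    by_cases hj : 1 ≤ j ∧ j < 2 * a
    · obtain ⟨t, ht, ht2⟩ := LEN2B_key h Hh.inj e (2 * a) hp H.per H.inj j hj.1 hj.2
      exact ⟨t, ht, fun _ _ => ht2⟩
    · exact ⟨0, hp, fun h1 h2 => absurd ⟨h1, h2⟩ hj⟩
  choose t ht1 ht2 using key
  have hcard : ((Finset.Ico 1 (2 * a)).erase a).card = 2 * a - 2 := by
    rw [Finset.card_erase_of_mem (by rw [Finset.mem_Ico]; have := H.pos; omega), Nat.card_Ico]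
    omega
  rw [← hcard]
  refine LEN2B_T_ge _ (fun j => (e (t j), e (t j + j))) ?_ ?_
  · intro j hj
    rw [Finset.mem_erase, Finset.mem_Ico] at hj
    obtain ⟨hja, hj1, hj2⟩ := hj
    obtain ⟨h1, h2⟩ := ht2 j hj1 hj2
    refine ⟨hX _, hX _, ?_, h1, ?_⟩
    · intro hc
      simp only at hc
      rw [← H.half] at hc
      have h3 : (t j + j) % (2 * a) = (t j + a) % (2 * a) := H.eq_mod hc
      have h4 : j % (2 * a) = a % (2 * a) := Nat.ModEq.add_left_cancel' _ h3
      rw [Nat.mod_eq_of_lt hj2, Nat.mod_eq_of_lt (by have := H.pos; omega)] at h4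
      exact hja h4
    · simp only
      rw [← H.step, ← H.step]
      exact h2
  · intro j1 h1 j2 h2 h12
    rw [Finset.mem_erase, Finset.mem_Ico] at h1 h2
    simp only [Prod.mk.injEq] at h12
    have h3 := H.inj _ _ (ht1 _) (ht1 _) h12.1
    have h4 := H.eq_mod h12.2
    rw [h3] at h4
    have h5 : j1 % (2 * a) = j2 % (2 * a) := Nat.ModEq.add_left_cancel' _ h4
    rwa [Nat.mod_eq_of_lt (by omega), Nat.mod_eq_of_lt (by omega)] at h5

theorem LEN2D_T_eq (h : Fin n × Bool → ℤ) (w : Equiv.Perm (Fin n × Bool))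
    (X Y : Finset (Fin n × Bool)) (hXY : ∀ x ∈ X, ∀ y ∈ Y, x.1 ≠ y.1) :
    LEN2B_T h w X Y = LEN_T h w X Y := by
  unfold LEN2B_T LEN_T
  apply Finset.sum_congr rfl
  intro x hx
  apply Finset.sum_congr rfl
  intro y hy
  unfold LEN2B_tau LEN_tau
  have h0 : y ≠ (x.1, !x.2) := by
    intro hc
    exact hXY x hx y hy (congrArg Prod.fst hc).symm
  by_cases hc : h x < h y ∧ h (w y) < h (w x)
  · rw [if_pos hc, if_pos ⟨h0, hc⟩]
  · rw [if_neg hc, if_neg (fun h' => hc h'.2)]

/-- twice the number of nonzero letters of the standard word -/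
def LEN2D_F : List ℕ → ℕ
  | [] => 0
  | a :: l => (2 * a - 2) + 4 * a * l.length + LEN2D_F l

theorem LEN2D_lower (h : Fin n × Bool → ℤ) (Hh : LEN_Odd h) (w : Equiv.Perm (Fin n × Bool))
    (l : List ℕ) (hl : ∀ a ∈ l, 1 ≤ a) (hs : l.Pairwise (· ≤ ·)) : ∀ k, k + l.sum ≤ n →
    LEN_Blk w k l → LEN2D_F l ≤ LEN2B_T h w (LEN_R n k l.sum) (LEN_R n k l.sum) := by
  induction l with
  | nil => intro k _ _; simp [LEN2D_F]
  | cons a l ih =>
    intro k hk hB
    rw [List.sum_cons] at hk ⊢
    obtain ⟨B1, B2, B3⟩ := hB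
    have ha : 1 ≤ a := hl a (by simp)
    obtain ⟨s1, s2⟩ := List.pairwise_cons.1 hs
    have i1 := ih (fun b hb => hl b (by simp [hb])) s2 (k + a) (by omega) B3
    have hcy := LEN_e_cy w k a (by omega) ha B1 B2
    have hmem : ∀ t, LEN_e k a (by omega) ha t ∈ LEN_R n k a := by
      intro t
      rw [LEN_mem_R]
      exact LEN_e_mem k a (by omega) ha t
    have h1 := LEN2D_one h Hh w _ a hcy (LEN_R n k a) hmem
    obtain ⟨c1, c2⟩ := LEN_cross h Hh w _ a hcy (LEN_R n k a) hmem l (k + a)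
      (fun x hx => (LEN_mem_R.1 hx).2) (by omega) s1 B3
    have d1 : LEN2B_T h w (LEN_R n k a) (LEN_R n (k + a) l.sum) =
        LEN_T h w (LEN_R n k a) (LEN_R n (k + a) l.sum) := by
      apply LEN2D_T_eq
      intro x hx y hy hxy
      rw [LEN_mem_R] at hx hy
      rw [hxy] at hx
      omega
    have d2 : LEN2B_T h w (LEN_R n (k + a) l.sum) (LEN_R n k a) =
        LEN_T h w (LEN_R n (k + a) l.sum) (LEN_R n k a) := by
      apply LEN2D_T_eq
      intro x hx y hy hxy
      rw [LEN_mem_R] at hx hy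
      rw [hxy] at hx
      omega
    rw [LEN_R_add, LEN2B_T_union_right _ _ _ _ _ (LEN_R_disj k a l.sum),
      LEN2B_T_union_left _ _ _ _ _ (LEN_R_disj k a l.sum),
      LEN2B_T_union_left _ _ _ _ _ (LEN_R_disj k a l.sum), d1, d2]
    have e1 : LEN2D_F (a :: l) = (2 * a - 2) + 4 * a * l.length + LEN2D_F l := rfl
    have e2 : 4 * a * l.length = 2 * a * l.length + 2 * a * l.length := by ring
    rw [e1, e2]
    omega

theorem LEN2D_inv_lower {β α : List ℕ} (hT : Typ n β α) (h : Fin n × Bool → ℤ) (Hh : LEN_Odd h) :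
    LEN2D_F β + LEN2B_F α ≤ LEN2D_inv h (LEN_w n (word2 β α)) := by
  obtain ⟨B1, B2⟩ := LEN2B_std2 hT
  obtain ⟨hβ, hs, hα, hsum⟩ := id hT
  have h1 := LEN2D_lower h Hh (LEN_w n (word2 β α)) β hβ hs 0 (by omega) B1
  have h2 := LEN2B_lower h Hh.inj (LEN_w n (word2 β α)) α hα β.sum (by omega) B2
  unfold LEN2D_inv
  rw [LEN2B_univ hT, LEN2B_T_union_right _ _ _ _ _ (LEN2B_disj β α),
    LEN2B_T_union_left _ _ _ _ _ (LEN2B_disj β α),
    LEN2B_T_union_left _ _ _ _ _ (LEN2B_disj β α)]
  omega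

/-! ### number of nonzero letters -/

theorem LEN2D_lenT_append (l l' : List ℕ) : lenT false (l ++ l') = lenT false l + lenT false l' := by
  simp [lenT]

theorem LEN2D_lenT_count (l : List ℕ) : lenT false l + l.count 0 = l.length := by
  induction l with
  | nil => simp [lenT]
  | cons a l ih =>
    rw [List.length_cons]
    by_cases ha : a = 0
    · subst ha
      rw [List.count_cons_self]
      have : lenT false (0 :: l) = lenT false l := by simp [lenT]
      rw [this]
      omega
    · rw [List.count_cons_of_ne (fun h => ha h)]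
      have : lenT false (a :: l) = lenT false l + 1 := by simp [lenT, ha]
      rw [this]
      omega

theorem LEN2D_count_pos (l : List ℕ) : ∀ k, (posWord k l).count 0 = 0 := by
  induction l with
  | nil => intro k; simp [posWord]
  | cons a l ih =>
    intro k
    simp only [posWord, List.count_append, ih, add_zero]
    rw [List.count_eq_zero]
    intro h
    rw [List.mem_range'_1] at h
    omega

theorem LEN2D_count_block (k a : ℕ) : (blockWord k a).count 0 = 1 := by
  unfold blockWord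
  rw [List.count_append, List.count_reverse]
  have h1 : (List.range (k + 1)).count 0 = 1 := by
    apply List.count_eq_one_of_mem List.nodup_range
    rw [List.mem_range]
    omega
  have h2 : (List.range' 1 (k + a - 1)).count 0 = 0 := by
    rw [List.count_eq_zero]
    intro h
    rw [List.mem_range'_1] at h
    omega
  rw [h1, h2]

theorem LEN2D_count_std (l : List ℕ) : ∀ k, (stdWord k l).count 0 = l.length := by
  induction l with
  | nil => intro k; simp [stdWord]
  | cons a l ih =>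
    intro k
    simp only [stdWord, List.count_append, ih, LEN2D_count_block, List.length_cons]
    omega

theorem LEN2D_count (β α : List ℕ) : (word2 β α).count 0 = β.length := by
  unfold word2
  rw [List.count_append, LEN2D_count_std, LEN2D_count_pos, add_zero]

theorem LEN2D_F_eq (l : List ℕ) (hl : ∀ a ∈ l, 1 ≤ a) : LEN2D_F l + 2 * l.length = LEN_F l := by
  induction l with
  | nil => simp [LEN2D_F, LEN_F]
  | cons a l ih =>
    have i1 := ih (fun b hb => hl b (by simp [hb]))
    have ha : 1 ≤ a := hl a (by simp)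
    have e1 : LEN2D_F (a :: l) = (2 * a - 2) + 4 * a * l.length + LEN2D_F l := rfl
    have e2 : LEN_F (a :: l) = 2 * a + 4 * a * l.length + LEN_F l := rfl
    rw [e1, e2, List.length_cons]
    omega

theorem LEN2D_word_length {β α : List ℕ} (hT : Typ n β α) :
    2 * lenT false (word2 β α) = LEN2D_F β + LEN2B_F α := by
  have h1 := LEN2B_word_length hT
  have h2 := LEN2D_lenT_count (word2 β α)
  have h3 := LEN2D_count β α
  have h4 := LEN2D_F_eq β hT.1
  omega

theorem LEN2D_dword_length (l : List ℕ) : ∀ p, (dword p l).length = lenT false l := by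
  induction l with
  | nil => intro p; simp [dword, lenT]
  | cons a l ih =>
    intro p
    match a with
    | 0 =>
      have : lenT false (0 :: l) = lenT false l := by simp [lenT]
      rw [this, dword]
      exact ih _
    | 1 =>
      have : lenT false (1 :: l) = lenT false l + 1 := by simp [lenT]
      rw [this, dword, List.length_cons, ih]
    | i + 2 =>
      have : lenT false ((i + 2) :: l) = lenT false l + 1 := by simp [lenT]
      rw [this, dword, List.length_cons, ih]

theorem LEN2D_dword_lt (hn : 2 ≤ n) (l : List ℕ) (hl : ∀ i ∈ l, i < n) :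
    ∀ p, ∀ i ∈ dword p l, i < n := by
  induction l with
  | nil => intro p i hi; simp [dword] at hi
  | cons a l ih =>
    have ih' := ih (fun i hi => hl i (by simp [hi]))
    have ha := hl a (by simp)
    intro p i hi
    match a, ha with
    | 0, _ =>
      rw [dword] at hi
      exact ih' _ i hi
    | 1, _ =>
      rw [dword, List.mem_cons] at hi
      rcases hi with hi | hi
      · rw [hi]
        split_ifs <;> omega
      · exact ih' _ i hi
    | j + 2, ha =>
      rw [dword, List.mem_cons] at hi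
      rcases hi with hi | hi
      · rw [hi]
        exact ha
      · exact ih' _ i hi

theorem LEN2D_lift (l : List ℕ) (hl : ∀ i ∈ l, i < n) :
    ∃ l' : List (Fin n), l'.length = l.length ∧ (l'.map (genD n)).prod = (l.map (gD n)).prod := by
  induction l with
  | nil => exact ⟨[], rfl, rfl⟩
  | cons a l ih =>
    obtain ⟨l', h1, h2⟩ := ih (fun i hi => hl i (by simp [hi]))
    refine ⟨⟨a, hl a (by simp)⟩ :: l', by simp [h1], ?_⟩
    rw [List.map_cons, List.prod_cons, List.map_cons, List.prod_cons, h2]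
    congr 1
    unfold gD
    rw [dif_pos (hl a (by simp))]

end LEN2Da

theorem LEN2D (hG : GEND_stmt) (hD : DW_stmt) : LEN2D_stmt := by
  intro n β α hn hT hE
  have hcoe : ((stdD n β α : WD n) : W n) = std2 n β α := by
    unfold stdD std2
    rw [hD n (word2 β α) (LEN2B_word_lt hT) false]
    have h1 : ¬ Odd ((word2 β α).count 0) := by
      rw [LEN2D_count, Nat.not_odd_iff_even]
      exact hE
    simp [h1]
  have hup : glen (genD n) (stdD n β α) ≤ lenT false (word2 β α) := by
    obtain ⟨l', h1, h2⟩ := LEN2D_lift (n := n) (dword false (word2 β α))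
      (LEN2D_dword_lt hn _ (LEN2B_word_lt hT) false)
    rw [LEN2D_dword_length] at h1
    unfold glen
    exact Nat.sInf_le ⟨l', h1, h2⟩
  have hlow : ∀ u : WD n, lenT false (word2 β α) ≤ glen (genD n) (u * stdD n β α * u⁻¹) := by
    intro u
    have hne : {k | ∃ l' : List (Fin n), l'.length = k ∧
        (l'.map (genD n)).prod = u * stdD n β α * u⁻¹}.Nonempty := by
      obtain ⟨l', h1⟩ := hG n (u * stdD n β α * u⁻¹)
      exact ⟨l'.length, l', rfl, h1⟩
    obtain ⟨l', h1, h2⟩ := Nat.sInf_mem hne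
    have h3 := LEN2D_inv_word l'
    rw [h2] at h3
    have h4 : ((((u * stdD n β α * u⁻¹ : WD n)) : W n) : Equiv.Perm (Fin n × Bool)) =
        ((u : W n) : Equiv.Perm (Fin n × Bool)) * LEN_w n (word2 β α) *
          ((u : W n) : Equiv.Perm (Fin n × Bool))⁻¹ := by
      rw [Subgroup.coe_mul, Subgroup.coe_mul, Subgroup.coe_inv, Subgroup.coe_mul, Subgroup.coe_mul,
        Subgroup.coe_inv, hcoe]
      rfl
    rw [h4, LEN2D_inv_conj _ _ _ (u : W n).2] at h3
    have h5 := LEN2D_inv_lower hT _ (LEN2B_odd (u : W n))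
    have h7 := LEN2D_word_length hT
    have h9 : glen (genD n) (u * stdD n β α * u⁻¹) = l'.length := by
      unfold glen
      exact h1.symm
    rw [h9]
    omega
  have h1 : glen (genD n) (stdD n β α) = lenT false (word2 β α) := by
    apply le_antisymm hup
    have := hlow 1
    simpa using this
  refine ⟨hcoe, h1, ?_⟩
  intro u
  rw [h1]
  exact hlow u

end Pool.Agent.helper27.PC
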