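import Pool.Agent.helper27.PC2.Stmt2

/-!
# PC project, module LEN2B: the standard words of `W(B_n)` are reduced, minimal length in the class
-/

set_option linter.all false

namespace Pool.Agent.helper27.PC

open Finset

section LEN2Ba

variable {n : ℕ}

/-- transition of a pair that is not opposite -/
def LEN2B_tau (h : Fin n × Bool → ℤ) (w : Equiv.Perm (Fin n × Bool)) (x y : Fin n × Bool) : ℕ :=
  if y ≠ (x.1, !x.2) ∧ h x < h y ∧ h (w y) < h (w x) then 1 else 0

/-- number of transitions of pairs that are not opposite -/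
def LEN2B_T (h : Fin n × Bool → ℤ) (w : Equiv.Perm (Fin n × Bool)) (X Y : Finset (Fin n × Bool)) : ℕ :=
  ∑ x ∈ X, ∑ y ∈ Y, LEN2B_tau h w x y

theorem LEN2B_T_card (h : Fin n × Bool → ℤ) (w : Equiv.Perm (Fin n × Bool))
    (X Y : Finset (Fin n × Bool)) : LEN2B_T h w X Y =
      ((X ×ˢ Y).filter (fun p => p.2 ≠ (p.1.1, !p.1.2) ∧ h p.1 < h p.2 ∧ h (w p.2) < h (w p.1))).card := by
  rw [Finset.card_filter, Finset.sum_product]
  rfl

theorem LEN2B_tau_le (h : Fin n × Bool → ℤ) (w : Equiv.Perm (Fin n × Bool)) (x y : Fin n × Bool) :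
    LEN2B_tau h w x y ≤ LEN_tau h w x y := by
  unfold LEN2B_tau LEN_tau
  by_cases hc : h x < h y ∧ h (w y) < h (w x)
  · rw [if_pos hc]
    split_ifs <;> omega
  · rw [if_neg hc, if_neg (fun h' => hc h'.2)]

theorem LEN2B_T_le (h : Fin n × Bool → ℤ) (w : Equiv.Perm (Fin n × Bool))
    (X Y : Finset (Fin n × Bool)) : LEN2B_T h w X Y ≤ LEN_T h w X Y :=
  Finset.sum_le_sum fun x _ => Finset.sum_le_sum fun y _ => LEN2B_tau_le h w x y

theorem LEN2B_T_union_left (h : Fin n × Bool → ℤ) (w : Equiv.Perm (Fin n × Bool))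
    (X X' Y : Finset (Fin n × Bool)) (hd : Disjoint X X') :
    LEN2B_T h w (X ∪ X') Y = LEN2B_T h w X Y + LEN2B_T h w X' Y := by
  unfold LEN2B_T
  rw [Finset.sum_union hd]

theorem LEN2B_T_union_right (h : Fin n × Bool → ℤ) (w : Equiv.Perm (Fin n × Bool))
    (X Y Y' : Finset (Fin n × Bool)) (hd : Disjoint Y Y') :
    LEN2B_T h w X (Y ∪ Y') = LEN2B_T h w X Y + LEN2B_T h w X Y' := by
  unfold LEN2B_T
  rw [← Finset.sum_add_distrib]
  apply Finset.sum_congr rfl
  intro x _
  rw [Finset.sum_union hd]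

theorem LEN2B_T_ge {h : Fin n × Bool → ℤ} {w : Equiv.Perm (Fin n × Bool)}
    {X Y : Finset (Fin n × Bool)} (S : Finset ℕ) (f : ℕ → (Fin n × Bool) × (Fin n × Bool))
    (hf : ∀ t ∈ S, (f t).1 ∈ X ∧ (f t).2 ∈ Y ∧ (f t).2 ≠ ((f t).1.1, !(f t).1.2) ∧
      h (f t).1 < h (f t).2 ∧
      h (w (f t).2) < h (w (f t).1)) (hinj : ∀ s ∈ S, ∀ t ∈ S, f s = f t → s = t) :
    S.card ≤ LEN2B_T h w X Y := by
  rw [LEN2B_T_card]
  apply Finset.card_le_card_of_injOn f
  · intro t ht
    obtain ⟨h1, h2, h0, h3, h4⟩ := hf t ht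
    rw [Finset.mem_coe, Finset.mem_filter, Finset.mem_product]
    exact ⟨⟨h1, h2⟩, h0, h3, h4⟩
  · intro s hs t ht hst
    exact hinj s hs t ht hst

/-- in a cycle of length `p` there is a transition for each difference `j` -/
theorem LEN2B_key (h : Fin n × Bool → ℤ) (hinj : Function.Injective h) (e : ℕ → Fin n × Bool) (p : ℕ)
    (hp : 0 < p) (per : ∀ t, e (t + p) = e t)
    (inj : ∀ s t, s < p → t < p → e s = e t → s = t) (j : ℕ) (hj1 : 1 ≤ j) (hj2 : j < p) :
    ∃ t < p, h (e t) < h (e (t + j)) ∧ h (e (t + j + 1)) < h (e (t + 1)) := by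
  have per_mul : ∀ t i, e (t + p * i) = e t := by
    intro t i
    induction i with
    | zero => simp
    | succ i ih =>
      have h1 : t + p * (i + 1) = (t + p * i) + p := by ring
      rw [h1, per, ih]
  have emod : ∀ t, e (t % p) = e t := by
    intro t
    have h1 := Nat.mod_add_div t p
    have h2 := per_mul (t % p) (t / p)
    rw [h1] at h2
    exact h2.symm
  have eqmod : ∀ s t, e s = e t → s % p = t % p := by
    intro s t h'
    apply inj _ _ (Nat.mod_lt _ hp) (Nat.mod_lt _ hp)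
    rw [emod, emod, h']
  obtain ⟨s, hs1⟩ : ∃ s, ∀ t, h (e t) ≤ h (e s) := by
    obtain ⟨s, -, hs⟩ := Finset.exists_max_image (Finset.range p) (fun t => h (e t))
      ⟨0, Finset.mem_range.2 hp⟩
    refine ⟨s, fun t => ?_⟩
    rw [← emod t]
    exact hs _ (Finset.mem_range.2 (Nat.mod_lt _ hp))
  obtain ⟨i, hi1, hi2, hi3⟩ := LEN_ivt
    (fun i => h (e (s + p - j + i)) < h (e (s + p - j + i + j))) j (by
      simp only [add_zero]
      have e1 : s + p - j + j = s + p := by omega
      rw [e1, per]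
      have h1 := hs1 (s + p - j)
      have h2 : h (e (s + p - j)) ≠ h (e s) := by
        intro h3
        have h4 := eqmod _ _ (hinj h3)
        have h5 : (s + p - j + j) % p = (s + j) % p := Nat.ModEq.add_right j h4
        rw [e1, Nat.add_mod_right] at h5
        have h6 : 0 % p = j % p := by
          have : (s + 0) % p = (s + j) % p := by simpa using h5
          exact Nat.ModEq.add_left_cancel' s this
        rw [Nat.zero_mod, Nat.mod_eq_of_lt hj2] at h6
        omega
      omega) (by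
      have e1 : s + p - j + j = s + p := by omega
      rw [e1, per]
      have h1 := hs1 (s + p + j)
      omega)
  refine ⟨(s + p - j + i) % p, Nat.mod_lt _ hp, ?_⟩
  have em : ∀ r, e ((s + p - j + i) % p + r) = e (s + p - j + i + r) := by
    intro r
    rw [← emod ((s + p - j + i) % p + r), ← emod (s + p - j + i + r)]
    rw [Nat.mod_add_mod]
  have em0 := em 0
  simp only [add_zero] at em0
  rw [em0, em j, em 1]
  have em2 := em (j + 1)
  rw [← add_assoc] at em2
  rw [em2]
  refine ⟨hi2, ?_⟩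
  have e3 : s + p - j + i + (j + 1) = s + p - j + (i + 1) + j := by ring
  have e4 : s + p - j + i + 1 = s + p - j + (i + 1) := by ring
  rw [e3, e4]
  have h7 : h (e (s + p - j + (i + 1))) ≠ h (e (s + p - j + (i + 1) + j)) := by
    intro h3
    have h4 := eqmod _ _ (hinj h3)
    have h6 : 0 % p = j % p := by
      have : (s + p - j + (i + 1) + 0) % p =
        (s + p - j + (i + 1) + j) % p := by simpa using h4
      exact Nat.ModEq.add_left_cancel' _ this
    rw [Nat.zero_mod, Nat.mod_eq_of_lt hj2] at h6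
    omega
  omega

/-- parametrisation of a positive block -/
def LEN2B_e (k a : ℕ) (hk : k + a ≤ n) (ha : 1 ≤ a) (b : Bool) (t : ℕ) : Fin n × Bool :=
  (⟨k + t % a, lt_of_lt_of_le (Nat.add_lt_add_left (Nat.mod_lt _ ha) k) hk⟩, b)

theorem LEN2B_e_step (w : Equiv.Perm (Fin n × Bool)) (k a : ℕ) (hk : k + a ≤ n) (ha : 1 ≤ a)
    (h1 : ∀ x : Fin n × Bool, k ≤ x.1.val → x.1.val + 1 < k + a → (w x).1.val = x.1.val + 1 ∧
      (w x).2 = x.2) (h2 : ∀ x : Fin n × Bool, x.1.val + 1 = k + a → (w x).1.val = k ∧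
      (w x).2 = x.2) (b : Bool) (t : ℕ) :
    LEN2B_e k a hk ha b (t + 1) = w (LEN2B_e k a hk ha b t) := by
  have hr := Nat.mod_lt t ha
  have ht := Nat.mod_add_div t a
  by_cases h : t % a + 1 < a
  · have e1 : (t + 1) % a = t % a + 1 := by
      have : t + 1 = (t % a + 1) + a * (t / a) := by omega
      rw [this, Nat.add_mul_mod_self_left, Nat.mod_eq_of_lt h]
    obtain ⟨g1, g2⟩ := h1 (LEN2B_e k a hk ha b t) (by simp [LEN2B_e]) (by simp [LEN2B_e]; omega)
    refine Prod.ext (Fin.ext ?_) ?_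
    · rw [g1]
      simp only [LEN2B_e]
      omega
    · rw [g2]
      simp only [LEN2B_e]
  · have e1 : (t + 1) % a = 0 := by
      have : t + 1 = 0 + a * (t / a + 1) := by
        rw [Nat.mul_add]
        omega
      rw [this, Nat.add_mul_mod_self_left, Nat.zero_mod]
    obtain ⟨g1, g2⟩ := h2 (LEN2B_e k a hk ha b t) (by simp [LEN2B_e]; omega)
    refine Prod.ext (Fin.ext ?_) ?_
    · rw [g1]
      simp only [LEN2B_e]
      omega
    · rw [g2]
      simp only [LEN2B_e]

/-- a positive block has at least `2 (a - 1)` transitions -/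
theorem LEN2B_one (h : Fin n × Bool → ℤ) (hinj : Function.Injective h) (w : Equiv.Perm (Fin n × Bool))
    (k a : ℕ) (hk : k + a ≤ n) (ha : 1 ≤ a)
    (h1 : ∀ x : Fin n × Bool, k ≤ x.1.val → x.1.val + 1 < k + a → (w x).1.val = x.1.val + 1 ∧
      (w x).2 = x.2) (h2 : ∀ x : Fin n × Bool, x.1.val + 1 = k + a → (w x).1.val = k ∧
      (w x).2 = x.2) : 2 * (a - 1) ≤ LEN2B_T h w (LEN_R n k a) (LEN_R n k a) := by
  classical
  have hmem : ∀ b t, LEN2B_e k a hk ha b t ∈ LEN_R n k a := by
    intro b t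
    rw [LEN_mem_R]
    have := Nat.mod_lt t ha
    simp only [LEN2B_e]
    omega
  have hstep := LEN2B_e_step w k a hk ha h1 h2
  have hper : ∀ b t, LEN2B_e k a hk ha b (t + a) = LEN2B_e k a hk ha b t := by
    intro b t
    refine Prod.ext (Fin.ext ?_) rfl
    simp only [LEN2B_e]
    rw [Nat.add_mod_right]
  have hi : ∀ b s t, LEN2B_e k a hk ha b s = LEN2B_e k a hk ha b t → s % a = t % a := by
    intro b s t hst
    have g1 := congrArg (fun x : Fin n × Bool => x.1.val) hst
    simp only [LEN2B_e] at g1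
    omega
  have key : ∀ b j, ∃ t < a, 1 ≤ j → j < a → h (LEN2B_e k a hk ha b t) < h (LEN2B_e k a hk ha b (t + j)) ∧
      h (LEN2B_e k a hk ha b (t + j + 1)) < h (LEN2B_e k a hk ha b (t + 1)) := by
    intro b j
    by_cases hj : 1 ≤ j ∧ j < a
    · obtain ⟨t, ht, ht2⟩ := LEN2B_key h hinj (LEN2B_e k a hk ha b) a ha (hper b) (by
        intro s t hs ht hst
        have := hi b s t hst
        rwa [Nat.mod_eq_of_lt hs, Nat.mod_eq_of_lt ht] at this) j hj.1 hj.2
      exact ⟨t, ht, fun _ _ => ht2⟩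
    · exact ⟨0, ha, fun h1 h2 => absurd ⟨h1, h2⟩ hj⟩
  choose t ht1 ht2 using key
  have hcard : (Finset.range (2 * (a - 1))).card = 2 * (a - 1) := Finset.card_range _
  rw [← hcard]
  -- number i: difference i/2 + 1, sign i%2
  refine LEN2B_T_ge _ (fun i => (LEN2B_e k a hk ha (decide (i % 2 = 0)) (t (decide (i % 2 = 0)) (i / 2 + 1)),
    LEN2B_e k a hk ha (decide (i % 2 = 0)) (t (decide (i % 2 = 0)) (i / 2 + 1) + (i / 2 + 1)))) ?_ ?_
  · intro i hi'
    rw [Finset.mem_range] at hi'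
    obtain ⟨q1, q2⟩ := ht2 (decide (i % 2 = 0)) (i / 2 + 1) (by omega) (by omega)
    refine ⟨hmem _ _, hmem _ _, ?_, q1, ?_⟩
    · intro hc
      have := congrArg Prod.snd hc
      simp only [LEN2B_e] at this
      revert this
      cases decide (i % 2 = 0) <;> simp
    · simp only
      rw [← hstep, ← hstep]
      exact q2
  · intro i1 h1' i2 h2' h12
    rw [Finset.mem_range] at h1' h2'
    simp only [Prod.mk.injEq] at h12
    obtain ⟨q1, q2⟩ := h12
    have hb : decide (i1 % 2 = 0) = decide (i2 % 2 = 0) := by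
      have := congrArg Prod.snd q1
      simpa only [LEN2B_e] using this
    rw [hb] at q1 q2
    have q3 := hi _ _ _ q1
    rw [Nat.mod_eq_of_lt (ht1 _ _), Nat.mod_eq_of_lt (ht1 _ _)] at q3
    have q4 := hi _ _ _ q2
    rw [q3] at q4
    have q5 : (i1 / 2 + 1) % a = (i2 / 2 + 1) % a := Nat.ModEq.add_left_cancel' _ q4
    rw [Nat.mod_eq_of_lt (by omega), Nat.mod_eq_of_lt (by omega)] at q5
    have q6 : (i1 % 2 = 0) ↔ (i2 % 2 = 0) := decide_eq_decide.1 hb
    omega

/-- `w` acts by positive cycles of lengths `l`, from the coordinate `k` on -/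
def LEN2B_Blk (w : Equiv.Perm (Fin n × Bool)) : ℕ → List ℕ → Prop
  | _, [] => True
  | k, a :: l => (∀ x, k ≤ x.1.val → x.1.val + 1 < k + a → (w x).1.val = x.1.val + 1 ∧
      (w x).2 = x.2) ∧ (∀ x, x.1.val + 1 = k + a → (w x).1.val = k ∧ (w x).2 = x.2) ∧
      LEN2B_Blk w (k + a) l

theorem LEN2B_Blk_congr (w w' : Equiv.Perm (Fin n × Bool)) (l : List ℕ) (hl : ∀ a ∈ l, 1 ≤ a) :
    ∀ k, (∀ x, k ≤ x.1.val → w' x = w x) → LEN2B_Blk w k l → LEN2B_Blk w' k l := by
  induction l with
  | nil => intro k _ _; trivial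
  | cons a l ih =>
    intro k h hB
    have ha : 1 ≤ a := hl a (by simp)
    obtain ⟨h1, h2, h3⟩ := hB
    refine ⟨?_, ?_, ?_⟩
    · intro x hx hx'
      rw [h x hx]
      exact h1 x hx hx'
    · intro x hx
      rw [h x (by omega)]
      exact h2 x hx
    · exact ih (fun b hb => hl b (by simp [hb])) (k + a) (fun x hx => h x (by omega)) h3

theorem LEN2B_Blk_congr' (w w' : Equiv.Perm (Fin n × Bool)) (l : List ℕ) (hl : ∀ a ∈ l, 1 ≤ a) :
    ∀ k, (∀ x, k ≤ x.1.val → x.1.val < k + l.sum → w' x = w x) → LEN_Blk w k l → LEN_Blk w' k l := by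
  induction l with
  | nil => intro k _ _; trivial
  | cons a l ih =>
    intro k h hB
    rw [List.sum_cons] at h
    have ha : 1 ≤ a := hl a (by simp)
    obtain ⟨h1, h2, h3⟩ := hB
    refine ⟨?_, ?_, ?_⟩
    · intro x hx hx'
      rw [h x hx (by omega)]
      exact h1 x hx hx'
    · intro x hx
      rw [h x (by omega) (by omega)]
      exact h2 x hx
    · exact ih (fun b hb => hl b (by simp [hb])) (k + a) (fun x hx hx' => h x (by omega) (by omega)) h3

theorem LEN2B_range' (k m : ℕ) (hm : k + m < n) (x : Fin n × Bool) :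
    (LEN_w n (List.range' (k + 1) m) x).1.val =
      (if x.1.val < k then x.1.val else if x.1.val < k + m then x.1.val + 1 else if x.1.val = k + m then k
        else x.1.val) ∧
    (LEN_w n (List.range' (k + 1) m) x).2 = x.2 := by
  induction m generalizing x with
  | zero =>
    simp only [List.range'_zero, LEN_w_nil, and_true]
    split_ifs <;> omega
  | succ m ih =>
    rw [List.range'_concat, LEN_w_append, LEN_w_single]
    obtain ⟨a1, a2⟩ := LEN_g_succ (n := n) (i := k + m) hm x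
    rw [show k + 1 + 1 * m = k + m + 1 by ring]
    obtain ⟨b1, b2⟩ := ih (by omega) (((g n (k + m + 1) : W n) : Equiv.Perm (Fin n × Bool)) x)
    rw [b1, b2, a1, a2]
    refine ⟨?_, rfl⟩
    split_ifs <;> omega

theorem LEN2B_pos (l : List ℕ) (hl : ∀ a ∈ l, 1 ≤ a) : ∀ k, k + l.sum ≤ n →
    (∀ x : Fin n × Bool, x.1.val < k → LEN_w n (posWord k l) x = x) ∧
    (∀ x : Fin n × Bool, k ≤ x.1.val → k ≤ (LEN_w n (posWord k l) x).1.val) ∧
    LEN2B_Blk (LEN_w n (posWord k l)) k l := by
  induction l with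
  | nil =>
    intro k _
    refine ⟨fun x _ => ?_, fun x hx => ?_, trivial⟩
    · simp [posWord, LEN_w]
    · simpa [posWord, LEN_w] using hx
  | cons a l ih =>
    intro k hk
    rw [List.sum_cons] at hk
    have ha : 1 ≤ a := hl a (by simp)
    obtain ⟨i1, i2, i3⟩ := ih (fun b hb => hl b (by simp [hb])) (k + a) (by omega)
    have hb := LEN2B_range' (n := n) k (a - 1) (by omega)
    have hfix : ∀ x : Fin n × Bool, (x.1.val < k ∨ k + a ≤ x.1.val) →
        LEN_w n (List.range' (k + 1) (a - 1)) x = x := by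
      intro x hx
      obtain ⟨b1, b2⟩ := hb x
      refine Prod.ext (Fin.ext ?_) b2
      rw [b1]
      split_ifs <;> omega
    have hw : ∀ x, LEN_w n (posWord k (a :: l)) x =
        LEN_w n (List.range' (k + 1) (a - 1)) (LEN_w n (posWord (k + a) l) x) := by
      intro x
      exact LEN_w_append _ _ x
    refine ⟨?_, ?_, ?_⟩
    · intro x hx
      rw [hw, i1 x (by omega), hfix x (Or.inl hx)]
    · intro x hx
      rw [hw]
      by_cases h : x.1.val < k + a
      · rw [i1 x h]
        obtain ⟨b1, b2⟩ := hb x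
        rw [b1]
        split_ifs <;> omega
      · have := i2 x (by omega)
        rw [hfix _ (Or.inr this)]
        omega
    · refine ⟨?_, ?_, ?_⟩
      · intro x hx hx'
        rw [hw, i1 x (by omega)]
        obtain ⟨b1, b2⟩ := hb x
        rw [b1, b2]
        rw [if_neg (by omega), if_pos (by omega)]
        exact ⟨rfl, rfl⟩
      · intro x hx
        rw [hw, i1 x (by omega)]
        obtain ⟨b1, b2⟩ := hb x
        rw [b1, b2]
        rw [if_neg (by omega), if_neg (by omega), if_pos (by omega)]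
        exact ⟨rfl, rfl⟩
      · refine LEN2B_Blk_congr (LEN_w n (posWord (k + a) l)) _ l (fun b hb => hl b (by simp [hb]))
          (k + a) ?_ i3
        intro x hx
        rw [hw]
        exact hfix _ (Or.inr (i2 x hx))

/-- a standard word fixes the coordinates after its blocks -/
theorem LEN2B_std_fix (l : List ℕ) (hl : ∀ a ∈ l, 1 ≤ a) : ∀ k, k + l.sum ≤ n →
    ∀ x : Fin n × Bool, k + l.sum ≤ x.1.val → LEN_w n (stdWord k l) x = x := by
  induction l with
  | nil =>
    intro k _ x _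
    simp [stdWord, LEN_w]
  | cons a l ih =>
    intro k hk x hx
    rw [List.sum_cons] at hk hx
    have ha : 1 ≤ a := hl a (by simp)
    have h1 := ih (fun b hb => hl b (by simp [hb])) (k + a) (by omega) x (by omega)
    have hw : LEN_w n (stdWord k (a :: l)) x =
        LEN_w n (blockWord k a) (LEN_w n (stdWord (k + a) l) x) := LEN_w_append _ _ x
    rw [hw, h1]
    obtain ⟨b1, b2⟩ := LEN_block (n := n) k a ha (by omega) x
    refine Prod.ext (Fin.ext ?_) ?_
    · rw [b1]
      split_ifs <;> omega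
    · rw [b2, if_neg (by omega)]

theorem LEN2B_std2 {β α : List ℕ} (hT : Typ n β α) :
    LEN_Blk (LEN_w n (word2 β α)) 0 β ∧ LEN2B_Blk (LEN_w n (word2 β α)) β.sum α := by
  obtain ⟨hβ, hs, hα, hsum⟩ := hT
  obtain ⟨p1, p2, p3⟩ := LEN2B_pos (n := n) α hα β.sum (by omega)
  obtain ⟨q1, q2, q3⟩ := LEN_std (n := n) β hβ 0 (by omega)
  have hf := LEN2B_std_fix (n := n) β hβ 0 (by omega)
  have hw : ∀ x, LEN_w n (word2 β α) x = LEN_w n (stdWord 0 β) (LEN_w n (posWord β.sum α) x) :=
    fun x => LEN_w_append _ _ x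
  constructor
  · refine LEN2B_Blk_congr' (LEN_w n (stdWord 0 β)) _ β hβ 0 ?_ q3
    intro x _ hx
    rw [hw, p1 x (by omega)]
  · refine LEN2B_Blk_congr (LEN_w n (posWord β.sum α)) _ α hα β.sum ?_ p3
    intro x hx
    rw [hw]
    exact hf _ (by have := p2 x hx; omega)

/-- twice the length of the word of the positive blocks -/
def LEN2B_F : List ℕ → ℕ
  | [] => 0
  | a :: l => 2 * (a - 1) + LEN2B_F l

theorem LEN2B_lower (h : Fin n × Bool → ℤ) (hinj : Function.Injective h) (w : Equiv.Perm (Fin n × Bool))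
    (l : List ℕ) (hl : ∀ a ∈ l, 1 ≤ a) : ∀ k, k + l.sum ≤ n →
    LEN2B_Blk w k l → LEN2B_F l ≤ LEN2B_T h w (LEN_R n k l.sum) (LEN_R n k l.sum) := by
  induction l with
  | nil => intro k _ _; simp [LEN2B_F]
  | cons a l ih =>
    intro k hk hB
    rw [List.sum_cons] at hk ⊢
    obtain ⟨B1, B2, B3⟩ := hB
    have ha : 1 ≤ a := hl a (by simp)
    have i1 := ih (fun b hb => hl b (by simp [hb])) (k + a) (by omega) B3
    have h1 := LEN2B_one h hinj w k a (by omega) ha B1 B2
    rw [LEN_R_add, LEN2B_T_union_right _ _ _ _ _ (LEN_R_disj k a l.sum),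
      LEN2B_T_union_left _ _ _ _ _ (LEN_R_disj k a l.sum),
      LEN2B_T_union_left _ _ _ _ _ (LEN_R_disj k a l.sum)]
    have e1 : LEN2B_F (a :: l) = 2 * (a - 1) + LEN2B_F l := rfl
    rw [e1]
    omega

theorem LEN2B_posWord_length (l : List ℕ) : ∀ k, 2 * (posWord k l).length = LEN2B_F l := by
  induction l with
  | nil => intro k; simp [posWord, LEN2B_F]
  | cons a l ih =>
    intro k
    have e1 : LEN2B_F (a :: l) = 2 * (a - 1) + LEN2B_F l := rfl
    rw [e1, ← ih (k + a)]
    simp only [posWord, List.length_append, List.length_range']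
    ring

theorem LEN2B_posWord_lt (l : List ℕ) (hl : ∀ a ∈ l, 1 ≤ a) : ∀ k, k + l.sum ≤ n →
    ∀ i ∈ posWord k l, 1 ≤ i ∧ i < n := by
  induction l with
  | nil => intro k _ i hi; simp [posWord] at hi
  | cons a l ih =>
    intro k hk i hi
    rw [List.sum_cons] at hk
    have ha : 1 ≤ a := hl a (by simp)
    simp only [posWord, List.mem_append, List.mem_range'_1] at hi
    rcases hi with hi | hi
    · omega
    · exact ih (fun b hb => hl b (by simp [hb])) (k + a) (by omega) i hi

theorem LEN2B_word_lt {β α : List ℕ} (hT : Typ n β α) : ∀ i ∈ word2 β α, i < n := by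
  obtain ⟨hβ, hs, hα, hsum⟩ := hT
  intro i hi
  unfold word2 at hi
  rw [List.mem_append] at hi
  rcases hi with hi | hi
  · exact LEN_word_lt β hβ 0 (by omega) i hi
  · exact (LEN2B_posWord_lt α hα β.sum (by omega) i hi).2

theorem LEN2B_word_length {β α : List ℕ} (hT : Typ n β α) :
    2 * (word2 β α).length = LEN_F β + LEN2B_F α := by
  obtain ⟨hβ, hs, hα, hsum⟩ := hT
  have h1 := LEN_stdWord_length β hβ 0
  have h2 := LEN2B_posWord_length α β.sum
  unfold word2
  rw [List.length_append]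
  omega

theorem LEN2B_univ {β α : List ℕ} (hT : Typ n β α) :
    (Finset.univ : Finset (Fin n × Bool)) = LEN_R n 0 β.sum ∪ LEN_R n β.sum α.sum := by
  obtain ⟨hβ, hs, hα, hsum⟩ := hT
  ext x
  rw [Finset.mem_union, LEN_mem_R, LEN_mem_R]
  have := x.1.isLt
  simp only [Finset.mem_univ, true_iff]
  omega

theorem LEN2B_disj (β α : List ℕ) : Disjoint (LEN_R n 0 β.sum) (LEN_R n β.sum α.sum) := by
  have := LEN_R_disj (n := n) 0 β.sum α.sum
  rwa [zero_add] at this

theorem LEN2B_inv {β α : List ℕ} (hT : Typ n β α) (h : Fin n × Bool → ℤ) (Hh : LEN_Odd h) :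
    LEN_F β + LEN2B_F α ≤ LEN_inv h (LEN_w n (word2 β α)) := by
  obtain ⟨B1, B2⟩ := LEN2B_std2 hT
  obtain ⟨hβ, hs, hα, hsum⟩ := id hT
  have h1 := LEN_lower h Hh (LEN_w n (word2 β α)) β hβ hs 0 (by omega) B1
  have h2 := LEN2B_lower h Hh.inj (LEN_w n (word2 β α)) α hα β.sum (by omega) B2
  have h3 := LEN2B_T_le h (LEN_w n (word2 β α)) (LEN_R n β.sum α.sum) (LEN_R n β.sum α.sum)
  unfold LEN_inv
  rw [LEN2B_univ hT, LEN_T_union_right _ _ _ _ _ (LEN2B_disj β α),
    LEN_T_union_left _ _ _ _ _ (LEN2B_disj β α),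
    LEN_T_union_left _ _ _ _ _ (LEN2B_disj β α),
    Finset.sum_union (LEN2B_disj β α)]
  omega

/-- the odd injective function of a conjugate -/
theorem LEN2B_odd (u : W n) :
    LEN_Odd (fun x => LEN_pos ((u : Equiv.Perm (Fin n × Bool)) x)) := by
  refine ⟨?_, ?_⟩
  · intro x y hxy
    exact (u : Equiv.Perm (Fin n × Bool)).injective (LEN_pos_odd.inj hxy)
  · intro x
    rw [mem_W.1 u.2 x, LEN_pos_odd.odd]

end LEN2Ba

theorem LEN2B : LEN2B_stmt := by
  intro n β α hT
  have hup : len (std2 n β α) ≤ (word2 β α).length := by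
    obtain ⟨l', h1, h2⟩ := LEN_lift (n := n) (word2 β α) (LEN2B_word_lt hT)
    unfold len
    exact Nat.sInf_le ⟨l', h1, h2⟩
  have hlow : ∀ u : W n, (word2 β α).length ≤ len (u * std2 n β α * u⁻¹) := by
    intro u
    have hne : {k | ∃ l' : List (Fin n), l'.length = k ∧
        (l'.map (gen n)).prod = u * std2 n β α * u⁻¹}.Nonempty := by
      obtain ⟨l', h1⟩ := GEN n (u * std2 n β α * u⁻¹)
      exact ⟨l'.length, l', rfl, h1⟩
    obtain ⟨l', h1, h2⟩ := Nat.sInf_mem hne
    have h3 := LEN_inv_word l'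
    rw [h2] at h3
    have h4 : (((u * std2 n β α * u⁻¹ : W n)) : Equiv.Perm (Fin n × Bool)) =
        (u : Equiv.Perm (Fin n × Bool)) * LEN_w n (word2 β α) *
          (u : Equiv.Perm (Fin n × Bool))⁻¹ := by
      rw [Subgroup.coe_mul, Subgroup.coe_mul, Subgroup.coe_inv]
      rfl
    rw [h4, LEN_inv_conj] at h3
    have h5 := LEN2B_inv hT _ (LEN2B_odd u)
    have h7 := LEN2B_word_length hT
    have h9 : len (u * std2 n β α * u⁻¹) = l'.length := by
      unfold len
      exact h1.symm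
    rw [h9]
    omega
  have h1 : len (std2 n β α) = (word2 β α).length := by
    apply le_antisymm hup
    have := hlow 1
    simpa using this
  refine ⟨h1, ?_⟩
  intro u
  rw [h1]
  exact hlow u

end Pool.Agent.helper27.PC
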